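import Pool.Agent.helper37.L5.SpecE
import Pool.Agent.helper12.TY.FinW

set_option autoImplicit false

/-!
# L5, row EDV5 (helper30; copy of helper70/FI4E/EDV.lean with `c + v` in place of `1`)
-/

namespace Pool.Agent.L5

open Pool.Agent.helper58.DC Pool.Agent.DI Pool.Agent.GR Pool.Agent.OB Pool.Agent.DR Pool.Agent.FI Pool.Agent.FI3 Pool.Agent.FI4 Pool.Agent.FI4I Pool.Agent.FI4E Pool.Agent.LE

theorem EDV5_pow (p : ℤ) (hp : Prime p) (c : ℕ) (b : ℤ) : ∀ (v : ℕ) (a : ℤ), ¬ p ^ (v + 1) ∣ a →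
    p ^ (c + v) ∣ a * b → p ^ c ∣ b := by
  intro v
  induction v with
  | zero =>
    intro a ha h
    rw [zero_add, pow_one] at ha
    exact hp.pow_dvd_of_dvd_mul_left c ha (by rwa [add_zero] at h)
  | succ v ih =>
    intro a ha h
    by_cases h1 : p ∣ a
    · obtain ⟨a', rfl⟩ := h1
      refine ih a' ?_ ?_
      · intro h2
        apply ha
        rw [pow_succ', mul_comm p (p ^ (v + 1)), mul_comm p a']
        exact mul_dvd_mul h2 (dvd_refl p)
      · have h3 : p ^ (c + (v + 1)) = p * p ^ (c + v) := by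
          rw [← add_assoc, pow_succ']
        rw [h3, mul_assoc] at h
        exact (mul_dvd_mul_iff_left hp.ne_zero).mp h
    · have h2 := hp.pow_dvd_of_dvd_mul_left (c + (v + 1)) h1 h
      exact (pow_dvd_pow p (by omega)).trans h2

theorem EDV5 (hOMX : OMX_stmt) : EDV5_stmt := by
  intro p M hM G _ _ hG χ hχ D hD c v hz α hα hj1 hj2
  have hpr := hM.pr
  have hact : (hol G).act (SemidirectProduct.inr α) = α := by
    rw [hol_act]
    exact al_one α
  have hproj : (hol G).proj (SemidirectProduct.inr α) = α := rfl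
  have hAB : α ∈ Pool.Agent.BQ.AB (hol G) M χ := by
    refine ⟨SemidirectProduct.inr α, hproj, ?_⟩
    rw [hact]
    exact hα
  have hW : Subgroup.zpowers α ≤ Pool.Agent.BQ.AB (hol G) M χ := by
    rw [Subgroup.zpowers_le]
    exact hAB
  have hinf : Subgroup.zpowers α ⊓ Pool.Agent.BQ.AB (hol G) M χ = Subgroup.zpowers α := inf_eq_left.2 hW
  have hAdm : Pool.Agent.MAPW.Adm (hol G) p M χ (Subgroup.zpowers α) (Subgroup.zpowers α) α := by
    refine ⟨?_, inf_le_left, ?_, ⟨0, ?_⟩, Subgroup.mem_zpowers α, le_sup_left, hj1⟩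
    · rw [hinf]
    · rw [hinf]
      intro w hw y hy
      exact Subgroup.mul_mem _ (Subgroup.mul_mem _ hw hy) (Subgroup.inv_mem _ hw)
    · rw [hinf, Subgroup.relIndex_self, pow_zero]
  have hmain := (Pool.Agent.TY.FinW_main p hpr M hM.max hM.mem G hG χ hχ D hD (c + v) hz
    (G ⋊[MonoidHom.id (MulAut G)] MulAut G) (MulAut G) (hol G) (Subgroup.zpowers α) (Subgroup.zpowers α) α hAdm
    (Subgroup.zpowers α) le_rfl).1 hinf.symm
  have hdade : (∑ᶠ d : ℤ, ∑ᶠ V : {V : Subgroup (MulAut G) // V ⊓ Subgroup.zpowers α = Subgroup.zpowers α},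
      altSum (hol G) p M χ d V.1) = dadeSum (hol G) p M χ α := by
    unfold dadeSum
    refine finsum_congr fun d => ?_
    let eqv : {V : Subgroup (MulAut G) // V ⊓ Subgroup.zpowers α = Subgroup.zpowers α} ≃
        {U : Subgroup (MulAut G) // α ∈ U} := Equiv.subtypeEquivRight fun V => by
      rw [inf_eq_right, Subgroup.zpowers_le]
    exact finsum_eq_of_bijective eqv eqv.bijective fun V => rfl
  rw [hdade] at hmain
  have hdvd : (p : ℤ) ^ c ∣ dadeSum (hol G) p M χ α := by
    have hpZ : Prime (p : ℤ) := Nat.prime_iff_prime_int.1 hpr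
    refine EDV5_pow (p : ℤ) hpZ c _ v _ ?_ hmain
    intro h
    apply hj2
    exact_mod_cast h
  obtain ⟨m, hm⟩ := hdvd
  have hO := hOMX p M hM G (G ⋊[MonoidHom.id (MulAut G)] MulAut G) (MulAut G) (hol G) hG χ hχ
    (SemidirectProduct.inr α)
  rw [hproj, hact, hm] at hO
  refine ⟨m, ?_⟩
  rw [← hO]
  push_cast
  ring

end Pool.Agent.L5
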